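import Pool.Agent.Helper80.RD.AlP

/-!
# Closed affine three-manifolds with reducible linear holonomy: the line case (helper80 for helper63)
-/

set_option autoImplicit false

open Set Filter Topology
open scoped Matrix

namespace Pool.Agent.Helper80.RD

open Pool.Agent.Helper63.Mk (V2 M2)
open Pool.Agent.Helper63.Rd

/-- lattices of matrices: integral kernels -/
lemma latkerM (L : AddSubgroup M4)
    (hd : ∃ δ : ℝ, 0 < δ ∧ ∀ x ∈ L, (∀ i j, |x i j| < δ) → x = 0)
    (f : M4 →ₗ[ℝ] M4) (hf : ∀ x ∈ L, f x ∈ L) (x : M4)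
    (hx : x ∈ Submodule.span ℝ (L : Set M4)) (hx0 : x ≠ 0) (hfx : f x = 0) :
    ∃ y ∈ L, y ≠ 0 ∧ f y = 0 := by
  obtain ⟨δ, hδ, hd⟩ := hd
  let L' : AddSubgroup (Fin 4 → Fin 4 → ℝ) := L
  refine latker (Fin 4 → Fin 4 → ℝ) L' ⟨δ, hδ, fun x hx hn => hd x hx fun i j => ?_⟩ f hf x hx hx0 hfx
  have h1 : ‖x i j‖ ≤ ‖x‖ := (norm_le_pi_norm (x i) j).trans (norm_le_pi_norm x i)
  rw [← Real.norm_eq_abs]
  exact h1.trans_lt hn

/-- the entries `01`, `02` -/
def bb : M4 →ₗ[ℝ] V2 where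
  toFun x := ![x 0 1, x 0 2]
  map_add' x y := by ext i; fin_cases i <;> simp
  map_smul' r x := by ext i; fin_cases i <;> simp

/-- the entries `13`, `23` -/
def vv : M4 →ₗ[ℝ] V2 where
  toFun x := ![x 1 3, x 2 3]
  map_add' x y := by ext i; fin_cases i <;> simp
  map_smul' r x := by ext i; fin_cases i <;> simp

/-- the entry `03` -/
def kk : M4 →ₗ[ℝ] ℝ where
  toFun x := x 0 3
  map_add' x y := by simp
  map_smul' r x := by simp

/-- rotation -/
def rot : V2 →ₗ[ℝ] V2 where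
  toFun x := ![x 1, -x 0]
  map_add' x y := by
    ext i
    fin_cases i
    · simp
    · simp
      ring
  map_smul' r x := by ext i; fin_cases i <;> simp

lemma suL_zero {x : M4} (h : SU wL x) (h1 : bb x = 0) (h2 : vv x = 0) (h3 : kk x = 0) : x = 0 := by
  have a0 := congrFun h1 0
  have a1 := congrFun h1 1
  have b0 := congrFun h2 0
  have b1 := congrFun h2 1
  ext i j
  fin_cases i <;> fin_cases j <;>
    first
    | exact h _ _ (by decide)
    | exact a0
    | exact a1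
    | exact b0
    | exact b1
    | exact h3

section

variable {H : Type} [Group H] {R : H →* M4} {χ : H →* ℝ} {D : H →* M2} {L : AddSubgroup M4}

lemma vv_Ad (hB : BlL R χ D) (γ : H) {x : M4} (hx : SU wL x) : vv (Ad R γ x) = D γ *ᵥ vv x := by
  have h1 := hB.tri γ
  have h2 := hB.one γ⁻¹
  have h4 := hB.blk γ
  have e10 := h1 1 0 (by decide)
  have e20 := h1 2 0 (by decide)
  have x0 : ∀ j, x 3 j = 0 := fun j => hx 3 j (by fin_cases j <;> decide)
  have x10 := hx 1 0 (by decide)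
  have x11 := hx 1 1 (by decide)
  have x12 := hx 1 2 (by decide)
  have x20 := hx 2 0 (by decide)
  have x21 := hx 2 1 (by decide)
  have x22 := hx 2 2 (by decide)
  have b00 : R γ 1 1 = D γ 0 0 := h4 0 0
  have b01 : R γ 1 2 = D γ 0 1 := h4 0 1
  have b10 : R γ 2 1 = D γ 1 0 := h4 1 0
  have b11 : R γ 2 2 = D γ 1 1 := h4 1 1
  ext a
  fin_cases a
  · change (R γ * x * R γ⁻¹) 1 3 = (D γ *ᵥ ![x 1 3, x 2 3]) 0
    simp only [Matrix.mul_apply, Fin.sum_univ_four, e10, x0, x10, x11, x12, x20, x21, x22, h2,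
      Matrix.mulVec, dotProduct, Fin.sum_univ_two, b00, b01, Matrix.cons_val_zero,
      Matrix.cons_val_one]
    ring
  · change (R γ * x * R γ⁻¹) 2 3 = (D γ *ᵥ ![x 1 3, x 2 3]) 1
    simp only [Matrix.mul_apply, Fin.sum_univ_four, e20, x0, x10, x11, x12, x20, x21, x22, h2,
      Matrix.mulVec, dotProduct, Fin.sum_univ_two, b10, b11, Matrix.cons_val_zero,
      Matrix.cons_val_one]
    ring

lemma bb_Ad (hB : BlL R χ D) (γ : H) {x : M4} (hx : SU wL x) :
    bb (Ad R γ x) = χ γ • (bb x ᵥ* D γ⁻¹) := by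
  have h1 := hB.tri γ⁻¹
  have h3 := hB.chr γ
  have h4 := hB.blk γ⁻¹
  have e31 := h1 3 1 (by decide)
  have e32 := h1 3 2 (by decide)
  have x0 : ∀ j, x 3 j = 0 := fun j => hx 3 j (by fin_cases j <;> decide)
  have x00 := hx 0 0 (by decide)
  have x10 := hx 1 0 (by decide)
  have x11 := hx 1 1 (by decide)
  have x12 := hx 1 2 (by decide)
  have x20 := hx 2 0 (by decide)
  have x21 := hx 2 1 (by decide)
  have x22 := hx 2 2 (by decide)
  have b00 : R γ⁻¹ 1 1 = D γ⁻¹ 0 0 := h4 0 0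
  have b01 : R γ⁻¹ 1 2 = D γ⁻¹ 0 1 := h4 0 1
  have b10 : R γ⁻¹ 2 1 = D γ⁻¹ 1 0 := h4 1 0
  have b11 : R γ⁻¹ 2 2 = D γ⁻¹ 1 1 := h4 1 1
  ext a
  fin_cases a
  · change (R γ * x * R γ⁻¹) 0 1 = χ γ * (![x 0 1, x 0 2] ᵥ* D γ⁻¹) 0
    simp only [Matrix.mul_apply, Fin.sum_univ_four, e31, x0, x00, x10, x11, x12, x20, x21, x22, h3,
      Matrix.vecMul, dotProduct, Fin.sum_univ_two, b00, b10, Matrix.cons_val_zero,
      Matrix.cons_val_one]
    ring
  · change (R γ * x * R γ⁻¹) 0 2 = χ γ * (![x 0 1, x 0 2] ᵥ* D γ⁻¹) 1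
    simp only [Matrix.mul_apply, Fin.sum_univ_four, e32, x0, x00, x10, x11, x12, x20, x21, x22, h3,
      Matrix.vecMul, dotProduct, Fin.sum_univ_two, b01, b11, Matrix.cons_val_zero,
      Matrix.cons_val_one]
    ring

lemma kk_Ad (hB : BlL R χ D) (γ : H) {x : M4} (hx : SU wL x) (hb : bb x = 0) (hv : vv x = 0) :
    kk (Ad R γ x) = χ γ * kk x := by
  have h2 := hB.one γ⁻¹
  have h3 := hB.chr γ
  have x0 : ∀ j, x 3 j = 0 := fun j => hx 3 j (by fin_cases j <;> decide)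
  have x00 := hx 0 0 (by decide)
  have x01 : x 0 1 = 0 := congrFun hb 0
  have x02 : x 0 2 = 0 := congrFun hb 1
  have x10 := hx 1 0 (by decide)
  have x11 := hx 1 1 (by decide)
  have x12 := hx 1 2 (by decide)
  have x13 : x 1 3 = 0 := congrFun hv 0
  have x20 := hx 2 0 (by decide)
  have x21 := hx 2 1 (by decide)
  have x22 := hx 2 2 (by decide)
  have x23 : x 2 3 = 0 := congrFun hv 1
  change (R γ * x * R γ⁻¹) 0 3 = χ γ * x 0 3
  simp only [Matrix.mul_apply, Fin.sum_univ_four, x0, x00, x01, x02, x10, x11, x12, x13, x20, x21,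
    x22, x23, h2, h3]
  ring

lemma span_suL (hsu : ∀ x ∈ L, SU wL x) {x : M4}
    (hx : x ∈ Submodule.span ℝ (L : Set M4)) : SU wL x := by
  induction hx using Submodule.span_induction with
  | mem x hx => exact hsu x hx
  | zero => intro i j _; rfl
  | add x y _ _ h1 h2 =>
    intro i j h
    rw [Matrix.add_apply, h1 i j h, h2 i j h, add_zero]
  | smul r x _ h1 =>
    intro i j h
    rw [Matrix.smul_apply, h1 i j h, smul_zero]

lemma bb_vv {x y : M4} (hx : SU wL x) (hy : SU wL y) (h : x * y = y * x) :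
    bb x ⬝ᵥ vv y = bb y ⬝ᵥ vv x := by
  have e : ∀ (x y : M4), SU wL x → SU wL y → (x * y) 0 3 = bb x ⬝ᵥ vv y := by
    intro x y hx hy
    have y3 : y 3 3 = 0 := hy 3 3 (by decide)
    have x0 : x 0 0 = 0 := hx 0 0 (by decide)
    change (x * y) 0 3 = ![x 0 1, x 0 2] ⬝ᵥ ![y 1 3, y 2 3]
    simp only [Matrix.mul_apply, Fin.sum_univ_four, x0, y3, dotProduct, Fin.sum_univ_two,
      Matrix.cons_val_zero, Matrix.cons_val_one]
    ring
  rw [← e x y hx hy, ← e y x hy hx, h]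

/-- a fixed vector of a matrix without eigenvalue one -/
lemma fix_zero {A : M2} (h1 : A.det = 1) (h2 : A 0 0 + A 1 1 ≠ 2) {v : V2} (hv : A *ᵥ v = v) :
    v = 0 := by
  have e0 := congrFun hv 0
  have e1 := congrFun hv 1
  rw [Matrix.det_fin_two] at h1
  simp only [Matrix.mulVec, dotProduct, Fin.sum_univ_two] at e0 e1
  have h3 : 2 - (A 0 0 + A 1 1) ≠ 0 := fun h => h2 (by linarith)
  have g0 : (2 - (A 0 0 + A 1 1)) * v 0 = 0 := by
    linear_combination (A 1 1 - 1) * e0 - (A 0 1) * e1 - (v 0) * h1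
  have g1 : (2 - (A 0 0 + A 1 1)) * v 1 = 0 := by
    linear_combination (A 0 0 - 1) * e1 - (A 1 0) * e0 - (v 1) * h1
  ext i
  fin_cases i
  · exact (mul_eq_zero.1 g0).resolve_left h3
  · exact (mul_eq_zero.1 g1).resolve_left h3

lemma fix_zero' {A : M2} (h1 : A.det = 1) (h2 : A 0 0 + A 1 1 ≠ 2) {v : V2} (hv : v ᵥ* A = v) :
    v = 0 := by
  refine fix_zero (A := Aᵀ) (by rw [Matrix.det_transpose, h1]) h2 ?_
  rw [Matrix.mulVec_transpose, hv]

lemma rot_inj {v : V2} (h : rot v = 0) : v = 0 := by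
  have h0 : v 1 = 0 := congrFun h 0
  have h1 : -v 0 = 0 := congrFun h 1
  ext i
  fin_cases i
  · exact neg_eq_zero.1 h1
  · exact h0

lemma rot_inv {A B : M2} (h : A * B = 1) (b : V2) : A *ᵥ rot b = A.det • rot (b ᵥ* B) := by
  have h1 : A.det • B = A.adjugate := by
    calc A.det • B = (A.det • (1 : M2)) * B := by rw [smul_mul_assoc, one_mul]
      _ = A.adjugate * A * B := by rw [Matrix.adjugate_mul]
      _ = A.adjugate := by rw [mul_assoc, h, mul_one]
  rw [← map_smul, ← Matrix.vecMul_smul, h1, Matrix.adjugate_fin_two]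
  ext i
  fin_cases i
  · change (A *ᵥ ![b 1, -b 0]) 0 = (b ᵥ* !![A 1 1, -A 0 1; -A 1 0, A 0 0]) 1
    simp [Matrix.mulVec, Matrix.vecMul, dotProduct, Fin.sum_univ_two]
    ring
  · change (A *ᵥ ![b 1, -b 0]) 1 = -(b ᵥ* !![A 1 1, -A 0 1; -A 1 0, A 0 0]) 0
    simp [Matrix.mulVec, Matrix.vecMul, dotProduct, Fin.sum_univ_two]
    ring

lemma no_intL (hB : BlL R χ D) (hI : Ir χ D) (h : ∀ γ, ∃ m : ℤ, (D γ).det = m) : False := by
  obtain ⟨γ, hγ⟩ := hI.ne
  refine hγ (chi_one hB.pos 1 one_ne_zero (fun γ => ?_) γ)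
  obtain ⟨m, hm⟩ := h γ
  refine ⟨m, ?_⟩
  rw [pow_one, ← hm]
  exact hB.det γ

theorem al_line : S_ALL := by
  intro H _ R χ D L hB hI hL
  obtain ⟨δ, hδ, hdisc⟩ := hL.disc
  set F := Submodule.span ℝ (L : Set M4) with hF
  have hsu : ∀ x ∈ F, SU wL x := fun x hx => span_suL hL.su hx
  have hAd : ∀ γ, ∀ x ∈ F, Ad R γ x ∈ F := fun γ x hx => span_Ad hL.inv γ hx
  have hχ : ∀ γ, χ γ * χ γ⁻¹ = 1 := fun γ => by rw [← map_mul, mul_inv_cancel, map_one]
  have hD : ∀ γ, D γ * D γ⁻¹ = 1 := fun γ => by rw [← map_mul, mul_inv_cancel, map_one]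
  have hD' : ∀ γ, D γ⁻¹ * D γ = 1 := fun γ => by rw [← map_mul, inv_mul_cancel, map_one]
  have hLF : ∀ x ∈ L, x ∈ F := fun x hx => Submodule.subset_span hx
  -- step 1
  obtain ⟨g₁, hg₁⟩ : ∃ γ, χ γ < 1 := by
    obtain ⟨γ, hγ⟩ := hI.ne
    rcases lt_or_gt_of_ne hγ with h | h
    · exact ⟨γ, h⟩
    · refine ⟨γ⁻¹, ?_⟩
      have h1 := hχ γ
      have h2 := hB.pos γ⁻¹
      nlinarith
  have s1 : ∀ x ∈ L, bb x = 0 → vv x = 0 → x = 0 := by
    intro x hx hb hv
    have h1 : Tendsto (fun n : ℕ => χ g₁ ^ n * |kk x|) atTop (𝓝 (0 * |kk x|)) :=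
      (tendsto_pow_atTop_nhds_zero_of_lt_one (hB.pos g₁).le hg₁).mul_const _
    rw [zero_mul] at h1
    obtain ⟨n, hn⟩ := (h1.eventually (gt_mem_nhds hδ)).exists
    have hx' := hL.su x hx
    have k1 : kk (Ad R (g₁ ^ n) x) = χ g₁ ^ n * kk x := by
      rw [kk_Ad hB _ hx' hb hv, map_pow]
    have k2 : bb (Ad R (g₁ ^ n) x) = 0 := by
      rw [bb_Ad hB _ hx', hb, Matrix.zero_vecMul, smul_zero]
    have k3 : vv (Ad R (g₁ ^ n) x) = 0 := by
      rw [vv_Ad hB _ hx', hv, Matrix.mulVec_zero]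
    have hmem : Ad R (g₁ ^ n) x ∈ L := hL.inv _ x hx
    have hs := hL.su _ hmem
    have h2 : Ad R (g₁ ^ n) x = 0 := by
      refine hdisc _ hmem fun i j => ?_
      by_cases hij : i = 0 ∧ j = 3
      · obtain ⟨rfl, rfl⟩ := hij
        have : (Ad R (g₁ ^ n) x) 0 3 = χ g₁ ^ n * kk x := k1
        rw [this, abs_mul, abs_of_pos (pow_pos (hB.pos g₁) n)]
        exact hn
      · have h0 : (Ad R (g₁ ^ n) x) i j = 0 := by
          have a0 := congrFun k2 0
          have a1 := congrFun k2 1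
          have b0 := congrFun k3 0
          have b1 := congrFun k3 1
          fin_cases i <;> fin_cases j <;>
            first
            | exact hs _ _ (by decide)
            | exact a0
            | exact a1
            | exact b0
            | exact b1
            | exact absurd ⟨rfl, rfl⟩ hij
        rw [h0, abs_zero]
        exact hδ
    have h3 : kk x = 0 := by
      rw [h2, map_zero] at k1
      exact (mul_eq_zero.1 k1.symm).resolve_left (pow_pos (hB.pos g₁) n).ne'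
    exact suL_zero hx' hb hv h3
  -- step 2
  obtain ⟨c, hc1, hc2, hc3⟩ := hI.c
  have s2 : ∀ x ∈ F, bb x = 0 → vv x = 0 → x = 0 := by
    intro x hx hb hv
    by_contra hne
    have hfx : (Ad R c - LinearMap.id : M4 →ₗ[ℝ] M4) x = 0 := by
      have hx' := hsu x hx
      have e1 : Ad R c x - x = 0 := by
        refine suL_zero (hsu _ (F.sub_mem (hAd c x hx) hx)) ?_ ?_ ?_
        · rw [map_sub, bb_Ad hB _ hx', hb, Matrix.zero_vecMul, smul_zero, sub_zero]
        · rw [map_sub, vv_Ad hB _ hx', hv, Matrix.mulVec_zero, sub_zero]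
        · rw [map_sub, kk_Ad hB _ hx' hb hv, hc1, one_mul, sub_self]
      exact e1
    obtain ⟨y, hy, hy0, hfy⟩ := latkerM L hL.disc (Ad R c - LinearMap.id)
      (fun x hx => L.sub_mem (hL.inv c x hx) hx) x hx hne hfx
    have hfix : Ad R c y = y := sub_eq_zero.1 hfy
    refine hy0 (s1 y hy ?_ ?_)
    · have h1 := bb_Ad hB c (hL.su y hy)
      rw [hfix, hc1, one_smul] at h1
      refine fix_zero' hc2 hc3 ?_
      conv_lhs => rw [h1, Matrix.vecMul_vecMul, hD', Matrix.vecMul_one]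
    · have h1 := vv_Ad hB c (hL.su y hy)
      rw [hfix] at h1
      exact fix_zero hc2 hc3 h1.symm
  -- step 3
  have hU := hI.irr (F.map vv) (by
    rintro γ _ ⟨x, hx, rfl⟩
    exact ⟨Ad R γ x, hAd γ x hx, vv_Ad hB γ (hsu x hx)⟩)
  rcases hU with hU | hU
  · -- V = 0
    have hv : ∀ x ∈ F, vv x = 0 := by
      intro x hx
      have : vv x ∈ F.map vv := ⟨x, hx, rfl⟩
      rw [hU] at this
      exact this
    have hU2 := hI.irr ((F.map bb).map rot) (by
      rintro γ _ ⟨_, ⟨x, hx, rfl⟩, rfl⟩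
      refine ⟨_, ⟨((D γ).det * χ γ⁻¹) • Ad R γ x, F.smul_mem _ (hAd γ x hx), rfl⟩, ?_⟩
      rw [map_smul, bb_Ad hB γ (hsu x hx), rot_inv (hD γ), smul_smul, map_smul]
      congr 1
      have := hχ γ
      linear_combination (D γ).det * this)
    rcases hU2 with hU2 | hU2
    · intro x hx
      refine s2 x (hLF x hx) ?_ (hv x (hLF x hx))
      have : rot (bb x) ∈ (F.map bb).map rot := ⟨_, ⟨x, hLF x hx, rfl⟩, rfl⟩
      rw [hU2] at this
      exact rot_inj this
    · exfalso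
      obtain ⟨γ₀, hγ₀⟩ := hI.ne
      refine hγ₀ (chi_one hB.pos 3 (by norm_num) (fun γ => ?_) γ₀)
      obtain ⟨m, hm⟩ := latdetM L hL.disc (Ad R γ⁻¹) (hL.inv γ⁻¹) bb
        (fun x hx hb => s2 x hx hb (hv x hx))
        (fun y => by
          have : rot y ∈ (F.map bb).map rot := by rw [hU2]; trivial
          obtain ⟨_, ⟨x, hx, rfl⟩, hy⟩ := this
          refine ⟨x, hx, ?_⟩
          have h2 : rot (bb x - y) = 0 := by rw [map_sub, hy, sub_self]
          exact sub_eq_zero.1 (rot_inj h2))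
        (χ γ⁻¹ • Matrix.toLin' (D γ)ᵀ) (fun x hx => by
          rw [bb_Ad hB γ⁻¹ (hL.su x hx), inv_inv]
          change χ γ⁻¹ • (bb x ᵥ* D γ) = χ γ⁻¹ • ((D γ)ᵀ *ᵥ bb x)
          rw [Matrix.mulVec_transpose])
      refine ⟨m, ?_⟩
      rw [det_smulV2, Matrix.det_transpose] at hm
      rw [← hm, abs_mul, abs_of_nonneg (sq_nonneg (χ γ⁻¹))]
      have h1 := hB.det γ
      have h2 := hχ γ
      calc χ γ⁻¹ ^ 2 * |(D γ).det| * χ γ ^ 3 = (χ γ * χ γ⁻¹) ^ 2 * (|(D γ).det| * χ γ) := by ring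
        _ = 1 := by rw [h1, h2]; norm_num
  · exfalso
    refine no_intL hB hI fun γ => ?_
    have hinj : ∀ x ∈ F, vv x = 0 → x = 0 := by
      intro x hx hv
      refine s2 x hx ?_ hv
      have h1 : ∀ w : V2, bb x ⬝ᵥ w = 0 := by
        intro w
        have : w ∈ F.map vv := by rw [hU]; trivial
        obtain ⟨y, hy, rfl⟩ := this
        rw [bb_vv (hsu x hx) (hsu y hy) (span_comm hL.comm hx hy), hv, dotProduct_zero]
      have h0 := h1 ![1, 0]
      have h2 := h1 ![0, 1]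
      simp only [dotProduct, Fin.sum_univ_two, Matrix.cons_val_zero, Matrix.cons_val_one, mul_one,
        mul_zero, add_zero, zero_add] at h0 h2
      ext i
      fin_cases i
      · exact h0
      · exact h2
    have h1 := latdetM L hL.disc (Ad R γ) (hL.inv γ) vv hinj
      (fun y => by
        have : y ∈ F.map vv := by rw [hU]; trivial
        obtain ⟨x, hx, hy⟩ := this
        exact ⟨x, hx, hy⟩)
      (Matrix.toLin' (D γ)) (fun x hx => by
        rw [vv_Ad hB γ (hL.su x hx)]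
        rfl)
    rw [det_V2] at h1
    exact h1

end

end Pool.Agent.Helper80.RD
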