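import Pool.Agent.Helper80.RD.Lat

/-!
# Closed affine three-manifolds with reducible linear holonomy: the plane case (helper80 for helper63)
-/

set_option autoImplicit false

open Set Filter Topology
open scoped Matrix

namespace Pool.Agent.Helper80.RD

open Pool.Agent.Helper63.Mk (V2 M2)
open Pool.Agent.Helper63.Rd

/-- lattices of matrices: integral determinants -/
lemma latdetM {Y : Type} [AddCommGroup Y] [Module ℝ Y] (L : AddSubgroup M4)
    (hd : ∃ δ : ℝ, 0 < δ ∧ ∀ x ∈ L, (∀ i j, |x i j| < δ) → x = 0)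
    (f : M4 →ₗ[ℝ] M4) (hf : ∀ x ∈ L, f x ∈ L) (p : M4 →ₗ[ℝ] Y)
    (hp : ∀ x ∈ Submodule.span ℝ (L : Set M4), p x = 0 → x = 0)
    (hs : ∀ y, ∃ x ∈ Submodule.span ℝ (L : Set M4), p x = y)
    (g : Y →ₗ[ℝ] Y) (hg : ∀ x ∈ L, p (f x) = g (p x)) : ∃ m : ℤ, LinearMap.det g = m := by
  obtain ⟨δ, hδ, hd⟩ := hd
  let L' : AddSubgroup (Fin 4 → Fin 4 → ℝ) := L
  refine latdet (Fin 4 → Fin 4 → ℝ) Y L' ⟨δ, hδ, fun x hx hn => hd x hx fun i j => ?_⟩ f hf p hp hs g hg
  have h1 : ‖x i j‖ ≤ ‖x‖ := (norm_le_pi_norm (x i) j).trans (norm_le_pi_norm x i)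
  rw [← Real.norm_eq_abs]
  exact h1.trans_lt hn

/-- conjugation -/
def Ad {H : Type} [Group H] (R : H →* M4) (γ : H) : M4 →ₗ[ℝ] M4 :=
  LinearMap.mulRight ℝ (R γ⁻¹) ∘ₗ LinearMap.mulLeft ℝ (R γ)

lemma Ad_apply {H : Type} [Group H] (R : H →* M4) (γ : H) (x : M4) :
    Ad R γ x = R γ * x * R γ⁻¹ := rfl

/-- the entries `02`, `12` -/
def cc : M4 →ₗ[ℝ] V2 where
  toFun x := ![x 0 2, x 1 2]
  map_add' x y := by ext i; fin_cases i <;> simp
  map_smul' r x := by ext i; fin_cases i <;> simp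

/-- the entries `03`, `13` -/
def ll : M4 →ₗ[ℝ] V2 where
  toFun x := ![x 0 3, x 1 3]
  map_add' x y := by ext i; fin_cases i <;> simp
  map_smul' r x := by ext i; fin_cases i <;> simp

/-- the entry `23` -/
def tt : M4 →ₗ[ℝ] ℝ where
  toFun x := x 2 3
  map_add' x y := by simp
  map_smul' r x := by simp

lemma su_zero {x : M4} (h : SU wP x) (h1 : cc x = 0) (h2 : ll x = 0) (h3 : tt x = 0) : x = 0 := by
  have a0 := congrFun h1 0
  have a1 := congrFun h1 1
  have b0 := congrFun h2 0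
  have b1 := congrFun h2 1
  ext i j
  fin_cases i <;> fin_cases j <;>
    first
    | exact h _ _ (by decide)
    | exact a0
    | exact a1
    | exact b0
    | exact b1
    | exact h3

section

variable {H : Type} [Group H] {R : H →* M4} {χ : H →* ℝ} {D : H →* M2}

lemma tt_Ad (hB : BlP R χ D) (γ : H) {x : M4} (hx : SU wP x) : tt (Ad R γ x) = χ γ * tt x := by
  have h1 := hB.tri γ
  have h2 := hB.one γ⁻¹
  have h3 := hB.chr γ
  have e20 := h1 2 0 (by decide)
  have e21 := h1 2 1 (by decide)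
  have x0 : ∀ j, x 3 j = 0 := fun j => hx 3 j (by fin_cases j <;> decide)
  have x20 := hx 2 0 (by decide)
  have x21 := hx 2 1 (by decide)
  have x22 := hx 2 2 (by decide)
  change (R γ * x * R γ⁻¹) 2 3 = χ γ * x 2 3
  simp only [Matrix.mul_apply, Fin.sum_univ_four, e20, e21, x0, x20, x21, x22, h2, h3]
  ring

lemma cc_Ad (hB : BlP R χ D) (γ : H) {x : M4} (hx : SU wP x) :
    cc (Ad R γ x) = χ γ⁻¹ • (D γ *ᵥ cc x) := by
  have h1 := hB.tri γ⁻¹
  have h3 := hB.chr γ⁻¹
  have h4 := hB.blk γ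
  have e32 := h1 3 2 (by decide)
  have x0 : ∀ j, x 3 j = 0 := fun j => hx 3 j (by fin_cases j <;> decide)
  have x20 := hx 2 0 (by decide)
  have x21 := hx 2 1 (by decide)
  have x22 := hx 2 2 (by decide)
  have x00 := hx 0 0 (by decide)
  have x01 := hx 0 1 (by decide)
  have x10 := hx 1 0 (by decide)
  have x11 := hx 1 1 (by decide)
  have b00 : R γ 0 0 = D γ 0 0 := h4 0 0
  have b01 : R γ 0 1 = D γ 0 1 := h4 0 1
  have b10 : R γ 1 0 = D γ 1 0 := h4 1 0
  have b11 : R γ 1 1 = D γ 1 1 := h4 1 1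
  ext a
  fin_cases a
  · change (R γ * x * R γ⁻¹) 0 2 = χ γ⁻¹ * (D γ *ᵥ ![x 0 2, x 1 2]) 0
    simp only [Matrix.mul_apply, Fin.sum_univ_four, e32, x0, x20, x21, x22, x00, x01, x10, x11, h3,
      Matrix.mulVec, dotProduct, Fin.sum_univ_two, b00, b01, Matrix.cons_val_zero,
      Matrix.cons_val_one]
    ring
  · change (R γ * x * R γ⁻¹) 1 2 = χ γ⁻¹ * (D γ *ᵥ ![x 0 2, x 1 2]) 1
    simp only [Matrix.mul_apply, Fin.sum_univ_four, e32, x0, x20, x21, x22, x00, x01, x10, x11, h3,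
      Matrix.mulVec, dotProduct, Fin.sum_univ_two, b10, b11, Matrix.cons_val_zero,
      Matrix.cons_val_one]
    ring

lemma ll_Ad (hB : BlP R χ D) (γ : H) {x : M4} (hx : SU wP x) (ht : tt x = 0) :
    ll (Ad R γ x) = D γ *ᵥ ll x + R γ⁻¹ 2 3 • (D γ *ᵥ cc x) := by
  have h2 := hB.one γ⁻¹
  have h4 := hB.blk γ
  have x0 : ∀ j, x 3 j = 0 := fun j => hx 3 j (by fin_cases j <;> decide)
  have x20 := hx 2 0 (by decide)
  have x21 := hx 2 1 (by decide)
  have x22 := hx 2 2 (by decide)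
  have x23 : x 2 3 = 0 := ht
  have x00 := hx 0 0 (by decide)
  have x01 := hx 0 1 (by decide)
  have x10 := hx 1 0 (by decide)
  have x11 := hx 1 1 (by decide)
  have b00 : R γ 0 0 = D γ 0 0 := h4 0 0
  have b01 : R γ 0 1 = D γ 0 1 := h4 0 1
  have b10 : R γ 1 0 = D γ 1 0 := h4 1 0
  have b11 : R γ 1 1 = D γ 1 1 := h4 1 1
  ext a
  fin_cases a
  · change (R γ * x * R γ⁻¹) 0 3 = (D γ *ᵥ ![x 0 3, x 1 3]) 0 +
      R γ⁻¹ 2 3 * (D γ *ᵥ ![x 0 2, x 1 2]) 0
    simp only [Matrix.mul_apply, Fin.sum_univ_four, x0, x20, x21, x22, x23, x00, x01, x10, x11, h2,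
      Matrix.mulVec, dotProduct, Fin.sum_univ_two, b00, b01, Matrix.cons_val_zero,
      Matrix.cons_val_one]
    ring
  · change (R γ * x * R γ⁻¹) 1 3 = (D γ *ᵥ ![x 0 3, x 1 3]) 1 +
      R γ⁻¹ 2 3 * (D γ *ᵥ ![x 0 2, x 1 2]) 1
    simp only [Matrix.mul_apply, Fin.sum_univ_four, x0, x20, x21, x22, x23, x00, x01, x10, x11, h2,
      Matrix.mulVec, dotProduct, Fin.sum_univ_two, b10, b11, Matrix.cons_val_zero,
      Matrix.cons_val_one]
    ring

lemma span_Ad {L : AddSubgroup M4} (hinv : ∀ γ, ∀ x ∈ L, R γ * x * R γ⁻¹ ∈ L) (γ : H) {x : M4}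
    (hx : x ∈ Submodule.span ℝ (L : Set M4)) : Ad R γ x ∈ Submodule.span ℝ (L : Set M4) := by
  have h : Submodule.span ℝ (L : Set M4) ≤ (Submodule.span ℝ (L : Set M4)).comap (Ad R γ) :=
    Submodule.span_le.2 fun y hy => Submodule.subset_span (hinv γ y hy)
  exact h hx

lemma span_su {L : AddSubgroup M4} (hsu : ∀ x ∈ L, SU wP x) {x : M4}
    (hx : x ∈ Submodule.span ℝ (L : Set M4)) : SU wP x := by
  induction hx using Submodule.span_induction with
  | mem x hx => exact hsu x hx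
  | zero => intro i j _; rfl
  | add x y _ _ h1 h2 =>
    intro i j h
    rw [Matrix.add_apply, h1 i j h, h2 i j h, add_zero]
  | smul r x _ h1 =>
    intro i j h
    rw [Matrix.smul_apply, h1 i j h, smul_zero]

/-- powers of a character which are integers -/
lemma chi_one (hpos : ∀ γ, 0 < χ γ) (k : ℕ) (hk : k ≠ 0)
    (h : ∀ γ, ∃ m : ℤ, |(m : ℝ)| * χ γ ^ k = 1) (γ : H) : χ γ = 1 := by
  have key : ∀ γ, χ γ ≤ 1 := by
    intro γ
    obtain ⟨m, hm⟩ := h γ
    have h0 : m ≠ 0 := by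
      rintro rfl
      simp at hm
    have h1 : (1 : ℝ) ≤ |(m : ℝ)| := by
      have := Int.one_le_abs h0
      exact_mod_cast this
    have h2 : 0 < χ γ ^ k := pow_pos (hpos γ) k
    have h3 : χ γ ^ k ≤ 1 := by nlinarith
    by_contra hc
    push Not at hc
    have := one_lt_pow₀ hc hk
    linarith
  have h1 := key γ
  have h2 := key γ⁻¹
  have h3 : χ γ * χ γ⁻¹ = 1 := by rw [← map_mul, mul_inv_cancel, map_one]
  have h4 := hpos γ
  have h5 := hpos γ⁻¹
  nlinarith

end

section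

variable {H : Type} [Group H] {R : H →* M4} {χ : H →* ℝ} {D : H →* M2} {L : AddSubgroup M4}

/-- commutation in the span -/
lemma span_comm (hc : ∀ x ∈ L, ∀ y ∈ L, x * y = y * x) {x y : M4}
    (hx : x ∈ Submodule.span ℝ (L : Set M4)) (hy : y ∈ Submodule.span ℝ (L : Set M4)) :
    x * y = y * x := by
  have h1 : ∀ x ∈ L, ∀ y ∈ Submodule.span ℝ (L : Set M4), x * y = y * x := by
    intro x hx y hy
    induction hy using Submodule.span_induction with
    | mem y hy => exact hc x hx y hy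
    | zero => simp
    | add y z _ _ h1 h2 => rw [mul_add, add_mul, h1, h2]
    | smul r y _ h1 => rw [mul_smul_comm, smul_mul_assoc, h1]
  induction hx using Submodule.span_induction with
  | mem x hx => exact h1 x hx y hy
  | zero => simp
  | add x z _ _ h1 h2 => rw [mul_add, add_mul, h1, h2]
  | smul r x _ h1 => rw [mul_smul_comm, smul_mul_assoc, h1]

lemma cc_tt {x y : M4} (hx : SU wP x) (hy : SU wP y) (h : x * y = y * x) :
    tt y • cc x = tt x • cc y := by
  have e : ∀ (x y : M4), SU wP x → SU wP y → ∀ a : Fin 4, wP a = 2 → (x * y) a 3 = x a 2 * y 2 3 := by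
    intro x y hx hy a ha
    have y3 : y 3 3 = 0 := hy 3 3 (by decide)
    have x0 : x a 0 = 0 := hx a 0 (by rw [ha]; decide)
    have x1 : x a 1 = 0 := hx a 1 (by rw [ha]; decide)
    simp only [Matrix.mul_apply, Fin.sum_univ_four, x0, x1, y3]
    ring
  ext a
  fin_cases a
  · have h1 := congrFun (congrFun h 0) 3
    rw [e x y hx hy 0 rfl, e y x hy hx 0 rfl] at h1
    change y 2 3 * x 0 2 = x 2 3 * y 0 2
    linarith
  · have h1 := congrFun (congrFun h 1) 3
    rw [e x y hx hy 1 rfl, e y x hy hx 1 rfl] at h1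
    change y 2 3 * x 1 2 = x 2 3 * y 1 2
    linarith

lemma det_V2 (A : M2) : LinearMap.det (Matrix.toLin' A) = A.det := LinearMap.det_toLin' A

lemma det_smulV2 (r : ℝ) (A : M2) : LinearMap.det (r • Matrix.toLin' A) = r ^ 2 * A.det := by
  rw [LinearMap.det_smul, det_V2]
  congr 2
  simp

/-- the determinants of the plane quotient cannot all be integers -/
lemma no_int (hB : BlP R χ D) (hI : Ir χ D) (h : ∀ γ, ∃ m : ℤ, (D γ).det = m) : False := by
  obtain ⟨γ, hγ⟩ := hI.ne
  refine hγ (chi_one hB.pos 1 one_ne_zero (fun γ => ?_) γ)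
  obtain ⟨m, hm⟩ := h γ
  refine ⟨m, ?_⟩
  rw [pow_one, ← hm]
  exact hB.det γ

theorem al_plane : S_ALP := by
  intro H _ R χ D L hB hI hL
  obtain ⟨δ, hδ, hdisc⟩ := hL.disc
  set F := Submodule.span ℝ (L : Set M4) with hF
  have hsu : ∀ x ∈ F, SU wP x := fun x hx => span_su hL.su hx
  have hAd : ∀ γ, ∀ x ∈ F, Ad R γ x ∈ F := fun γ x hx => span_Ad hL.inv γ hx
  have hχ : ∀ γ, χ γ * χ γ⁻¹ = 1 := fun γ => by rw [← map_mul, mul_inv_cancel, map_one]
  -- the subspaces
  have hUc := hI.irr (F.map cc) (by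
    rintro γ _ ⟨x, hx, rfl⟩
    refine ⟨χ γ • Ad R γ x, F.smul_mem _ (hAd γ x hx), ?_⟩
    rw [map_smul, cc_Ad hB γ (hsu x hx), smul_smul, hχ, one_smul])
  -- zero at the end
  have hLF : ∀ x ∈ L, x ∈ F := fun x hx => Submodule.subset_span hx
  by_cases hA : ∀ x ∈ F, tt x = 0
  · -- case A
    have hUl := hI.irr ((F ⊓ LinearMap.ker cc).map ll) (by
      rintro γ _ ⟨x, ⟨hx, hxc⟩, rfl⟩
      have hxc' : cc x = 0 := hxc
      refine ⟨Ad R γ x, ⟨hAd γ x hx, ?_⟩, ?_⟩
      · change cc (Ad R γ x) = 0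
        rw [cc_Ad hB γ (hsu x hx), hxc', Matrix.mulVec_zero, smul_zero]
      · rw [ll_Ad hB γ (hsu x hx) (hA x hx), hxc', Matrix.mulVec_zero, smul_zero, add_zero])
    rcases hUc with hUc | hUc <;> rcases hUl with hUl | hUl
    · -- both zero
      intro x hx
      have hc : cc x = 0 := by
        have : cc x ∈ F.map cc := ⟨x, hLF x hx, rfl⟩
        rw [hUc] at this
        exact this
      have hl : ll x = 0 := by
        have : ll x ∈ (F ⊓ LinearMap.ker cc).map ll := ⟨x, ⟨hLF x hx, hc⟩, rfl⟩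
        rw [hUl] at this
        exact this
      exact su_zero (hL.su x hx) hc hl (hA x (hLF x hx))
    · -- l is bijective
      have hc : ∀ x ∈ F, cc x = 0 := by
        intro x hx
        have : cc x ∈ F.map cc := ⟨x, hx, rfl⟩
        rw [hUc] at this
        exact this
      exfalso
      refine no_int hB hI fun γ => ?_
      have h1 := latdetM L hL.disc (Ad R γ) (hL.inv γ) ll
        (fun x hx hlx => su_zero (hsu x hx) (hc x hx) hlx (hA x hx))
        (fun y => by
          have : y ∈ (F ⊓ LinearMap.ker cc).map ll := by rw [hUl]; trivial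
          obtain ⟨x, ⟨hx, _⟩, hy⟩ := this
          exact ⟨x, hx, hy⟩)
        (Matrix.toLin' (D γ)) (fun x hx => by
          rw [ll_Ad hB γ (hL.su x hx) (hA x (hLF x hx)), hc x (hLF x hx), Matrix.mulVec_zero,
            smul_zero, add_zero]
          rfl)
      rw [det_V2] at h1
      exact h1
    · -- c is bijective
      exfalso
      obtain ⟨γ₀, hγ₀⟩ := hI.ne
      refine hγ₀ (chi_one hB.pos 3 (by norm_num) (fun γ => ?_) γ₀)
      obtain ⟨m, hm⟩ := latdetM L hL.disc (Ad R γ) (hL.inv γ) cc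
        (fun x hx hcx => su_zero (hsu x hx) hcx (by
          have : ll x ∈ (F ⊓ LinearMap.ker cc).map ll := ⟨x, ⟨hx, hcx⟩, rfl⟩
          rw [hUl] at this
          exact this) (hA x hx))
        (fun y => by
          have : y ∈ F.map cc := by rw [hUc]; trivial
          obtain ⟨x, hx, hy⟩ := this
          exact ⟨x, hx, hy⟩)
        (χ γ⁻¹ • Matrix.toLin' (D γ)) (fun x hx => by
          rw [cc_Ad hB γ (hL.su x hx)]
          rfl)
      refine ⟨m, ?_⟩
      rw [det_smulV2] at hm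
      rw [← hm, abs_mul, abs_of_nonneg (sq_nonneg (χ γ⁻¹))]
      have h1 := hB.det γ
      have h2 := hχ γ
      calc χ γ⁻¹ ^ 2 * |(D γ).det| * χ γ ^ 3 = (χ γ * χ γ⁻¹) ^ 2 * (|(D γ).det| * χ γ) := by ring
        _ = 1 := by rw [h1, h2]; norm_num
    · -- both
      exfalso
      obtain ⟨γ₀, hγ₀⟩ := hI.ne
      refine hγ₀ (chi_one hB.pos 4 (by norm_num) (fun γ => ?_) γ₀)
      obtain ⟨m, hm⟩ := latdetM L hL.disc (Ad R γ) (hL.inv γ) (ll.prod cc)
        (fun x hx hx0 => su_zero (hsu x hx) (Prod.ext_iff.1 hx0).2 (Prod.ext_iff.1 hx0).1 (hA x hx))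
        (fun y => by
          have h1 : y.2 ∈ F.map cc := by rw [hUc]; trivial
          obtain ⟨x, hx, hy⟩ := h1
          have h2 : y.1 - ll x ∈ (F ⊓ LinearMap.ker cc).map ll := by rw [hUl]; trivial
          obtain ⟨z, ⟨hz, hz0⟩, hzl⟩ := h2
          have hz0' : cc z = 0 := hz0
          refine ⟨x + z, F.add_mem hx hz, ?_⟩
          ext1
          · change ll (x + z) = y.1
            rw [map_add, hzl]
            abel
          · change cc (x + z) = y.2
            rw [map_add, hz0', hy, add_zero])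
        (Pool.Agent.Helper63.Ce.bt (Matrix.toLin' (D γ)) (R γ⁻¹ 2 3 • Matrix.toLin' (D γ))
          (χ γ⁻¹ • Matrix.toLin' (D γ)))
        (fun x hx => by
          rw [Pool.Agent.Helper63.Ce.bt_apply]
          ext1
          · change ll (Ad R γ x) = _
            rw [ll_Ad hB γ (hL.su x hx) (hA x (hLF x hx))]
            rfl
          · change cc (Ad R γ x) = _
            rw [cc_Ad hB γ (hL.su x hx)]
            rfl)
      refine ⟨m, ?_⟩
      rw [← hm, Pool.Agent.Helper63.Ce.abs_det_bt, det_smulV2, det_V2, abs_mul,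
        abs_of_nonneg (sq_nonneg (χ γ⁻¹))]
      have h1 := hB.det γ
      have h2 := hχ γ
      calc |(D γ).det| * (χ γ⁻¹ ^ 2 * |(D γ).det|) * χ γ ^ 4 =
          (χ γ * χ γ⁻¹) ^ 2 * (|(D γ).det| * χ γ) ^ 2 := by ring
        _ = 1 := by rw [h1, h2]; norm_num
  · -- case B
    push Not at hA
    obtain ⟨x₀, hx₀, ht₀⟩ := hA
    have hc : ∀ x ∈ F, cc x = 0 := by
      rcases hUc with hUc | hUc
      · intro x hx
        have : cc x ∈ F.map cc := ⟨x, hx, rfl⟩
        rw [hUc] at this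
        exact this
      · exfalso
        have h1 : ∀ y : V2, ∃ r : ℝ, r • cc x₀ = y := by
          intro y
          have : y ∈ F.map cc := by rw [hUc]; trivial
          obtain ⟨x, hx, hy⟩ := this
          refine ⟨(tt x₀)⁻¹ * tt x, ?_⟩
          have h2 := cc_tt (hsu x hx) (hsu x₀ hx₀) (span_comm hL.comm hx hx₀)
          rw [← hy, mul_smul, ← h2, smul_smul, inv_mul_cancel₀ ht₀, one_smul]
        obtain ⟨r, hr⟩ := h1 ![1, 0]
        obtain ⟨s, hs⟩ := h1 ![0, 1]
        have r0 := congrFun hr 0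
        have r1 := congrFun hr 1
        have s0 := congrFun hs 0
        have s1 := congrFun hs 1
        simp only [Pi.smul_apply, smul_eq_mul, Matrix.cons_val_zero, Matrix.cons_val_one] at r0 r1 s0 s1
        have : (r * cc x₀ 0) * (s * cc x₀ 1) = (r * cc x₀ 1) * (s * cc x₀ 0) := by ring
        rw [r0, r1, s0, s1] at this
        norm_num at this
    -- the elements with `t = 0`
    let L₀ : AddSubgroup M4 := L ⊓ (LinearMap.ker tt).toAddSubgroup
    have hL₀ : ∀ x, x ∈ L₀ ↔ x ∈ L ∧ tt x = 0 := fun x => Iff.rfl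
    have hinv₀ : ∀ γ, ∀ x ∈ L₀, R γ * x * R γ⁻¹ ∈ L₀ := by
      intro γ x hx
      rw [hL₀] at hx ⊢
      refine ⟨hL.inv γ x hx.1, ?_⟩
      have := tt_Ad hB γ (hL.su x hx.1)
      rw [hx.2, mul_zero] at this
      exact this
    have hsub : Submodule.span ℝ (L₀ : Set M4) ≤ F ⊓ LinearMap.ker tt :=
      Submodule.span_le.2 fun x hx => ⟨hLF x hx.1, hx.2⟩
    have hzero₀ : ∀ x ∈ L₀, x = 0 := by
      have hU := hI.irr ((Submodule.span ℝ (L₀ : Set M4)).map ll) (by
        rintro γ _ ⟨x, hx, rfl⟩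
        have hx' := hsub hx
        have hxt : tt x = 0 := hx'.2
        refine ⟨Ad R γ x, span_Ad hinv₀ γ hx, ?_⟩
        rw [ll_Ad hB γ (hsu x hx'.1) hxt, hc x hx'.1, Matrix.mulVec_zero, smul_zero, add_zero])
      rcases hU with hU | hU
      · intro x hx
        have hx' := (hL₀ x).1 hx
        refine su_zero (hL.su x hx'.1) (hc x (hLF x hx'.1)) ?_ hx'.2
        have : ll x ∈ (Submodule.span ℝ (L₀ : Set M4)).map ll := ⟨x, Submodule.subset_span hx, rfl⟩
        rw [hU] at this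
        exact this
      · exfalso
        refine no_int hB hI fun γ => ?_
        have h1 := latdetM L₀ ⟨δ, hδ, fun x hx => hdisc x hx.1⟩ (Ad R γ) (hinv₀ γ) ll
          (fun x hx hlx => by
            have hx' := hsub hx
            exact su_zero (hsu x hx'.1) (hc x hx'.1) hlx hx'.2)
          (fun y => by
            have : y ∈ (Submodule.span ℝ (L₀ : Set M4)).map ll := by rw [hU]; trivial
            obtain ⟨x, hx, hy⟩ := this
            exact ⟨x, hx, hy⟩)
          (Matrix.toLin' (D γ)) (fun x hx => by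
            have hx' := (hL₀ x).1 hx
            rw [ll_Ad hB γ (hL.su x hx'.1) hx'.2, hc x (hLF x hx'.1), Matrix.mulVec_zero,
              smul_zero, add_zero]
            rfl)
        rw [det_V2] at h1
        exact h1
    -- the element `c`
    obtain ⟨g, hg1, hg2, hg3⟩ := hI.c
    have hfix : ∀ x ∈ F, Ad R g x = x := by
      intro x hx
      induction hx using Submodule.span_induction with
      | mem x hx =>
        have h1 : Ad R g x - x ∈ L₀ := by
          rw [hL₀]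
          refine ⟨L.sub_mem (hL.inv g x hx) hx, ?_⟩
          rw [map_sub, tt_Ad hB g (hL.su x hx), hg1, one_mul, sub_self]
        exact sub_eq_zero.1 (hzero₀ _ h1)
      | zero => rw [map_zero]
      | add x y _ _ h1 h2 => rw [map_add, h1, h2]
      | smul r x _ h1 => rw [map_smul, h1]
    have hU1 := hI.irr ((F ⊓ LinearMap.ker tt).map ll) (by
      rintro γ _ ⟨x, ⟨hx, hxt⟩, rfl⟩
      have hxt' : tt x = 0 := hxt
      refine ⟨Ad R γ x, ⟨hAd γ x hx, ?_⟩, ?_⟩
      · change tt (Ad R γ x) = 0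
        rw [tt_Ad hB γ (hsu x hx), hxt', mul_zero]
      · rw [ll_Ad hB γ (hsu x hx) hxt', hc x hx, Matrix.mulVec_zero, smul_zero, add_zero])
    rcases hU1 with hU1 | hU1
    · exfalso
      obtain ⟨γ₀, hγ₀⟩ := hI.ne
      refine hγ₀ (chi_one hB.pos 1 one_ne_zero (fun γ => ?_) γ₀)
      have key : ∀ γ, ∃ m : ℤ, χ γ = m := by
        intro γ
        obtain ⟨m, hm⟩ := latdetM L hL.disc (Ad R γ) (hL.inv γ) tt
          (fun x hx hx0 => su_zero (hsu x hx) (hc x hx) (by
            have : ll x ∈ (F ⊓ LinearMap.ker tt).map ll := ⟨x, ⟨hx, hx0⟩, rfl⟩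
            rw [hU1] at this
            exact this) hx0)
          (fun y => ⟨(y * (tt x₀)⁻¹) • x₀, F.smul_mem _ hx₀, by
            rw [map_smul, smul_eq_mul, mul_assoc, inv_mul_cancel₀ ht₀, mul_one]⟩)
          (χ γ • LinearMap.id) (fun x hx => by
            rw [tt_Ad hB γ (hL.su x hx)]
            rfl)
        refine ⟨m, ?_⟩
        rw [← hm, LinearMap.det_smul, LinearMap.det_id]
        simp
      obtain ⟨m, hm⟩ := key γ⁻¹
      refine ⟨m, ?_⟩
      rw [← hm, abs_of_pos (hB.pos _), pow_one, mul_comm]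
      exact hχ γ
    · exfalso
      apply hg3
      have h1 : ∀ v : V2, D g *ᵥ v = v := by
        intro v
        have : v ∈ (F ⊓ LinearMap.ker tt).map ll := by rw [hU1]; trivial
        obtain ⟨x, ⟨hx, hxt⟩, rfl⟩ := this
        have h2 := ll_Ad hB g (hsu x hx) hxt
        rw [hfix x hx, hc x hx, Matrix.mulVec_zero, smul_zero, add_zero] at h2
        exact h2.symm
      have e0 := congrFun (h1 ![1, 0]) 0
      have e1 := congrFun (h1 ![0, 1]) 1
      simp only [Matrix.mulVec, dotProduct, Fin.sum_univ_two, Matrix.cons_val_zero,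
        Matrix.cons_val_one, mul_one, mul_zero, add_zero, zero_add] at e0 e1
      rw [e0, e1]
      norm_num

end

end Pool.Agent.Helper80.RD
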