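import Pool.Agent.Helper63.Rd.Defs

/-!
# Discrete subgroups: integral kernels and determinants (helper80 for helper63)
-/

set_option autoImplicit false

namespace Pool.Agent.Helper80.RD

open Module Submodule

section

variable {V : Type} [NormedAddCommGroup V] [NormedSpace ℝ V]

/-- the lattice in its span -/
def lt (L : AddSubgroup V) : Submodule ℤ (span ℝ (L : Set V)) :=
  comap ((span ℝ (L : Set V)).restrictScalars ℤ).subtype (AddSubgroup.toIntSubmodule L)

lemma lt_mem (L : AddSubgroup V) (x : span ℝ (L : Set V)) : x ∈ lt L ↔ (x : V) ∈ L := Iff.rfl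

lemma lt_disc (L : AddSubgroup V) (hd : ∃ δ : ℝ, 0 < δ ∧ ∀ x ∈ L, ‖x‖ < δ → x = 0) :
    DiscreteTopology (lt L) := by
  obtain ⟨δ, hδ, h⟩ := hd
  refine DiscreteTopology.of_forall_le_dist hδ fun x y hxy => ?_
  by_contra hc
  push Not at hc
  have h1 : ((x : span ℝ (L : Set V)) : V) - ((y : span ℝ (L : Set V)) : V) ∈ L :=
    L.sub_mem x.2 y.2
  have h2 : ‖((x : span ℝ (L : Set V)) : V) - ((y : span ℝ (L : Set V)) : V)‖ < δ := by
    rw [← dist_eq_norm]
    exact hc
  have h3 := sub_eq_zero.1 (h _ h1 h2)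
  exact hxy (Subtype.ext (Subtype.ext h3))

lemma lt_lat (L : AddSubgroup V) [DiscreteTopology (lt L)] : IsZLattice ℝ (lt L) := by
  refine ⟨?_⟩
  have h : ((lt L : Submodule ℤ (span ℝ (L : Set V))) : Set (span ℝ (L : Set V)))
      = ((↑) : span ℝ (L : Set V) → V) ⁻¹' (L : Set V) := rfl
  rw [h]
  exact span_span_coe_preimage

/-- `f` maps the span to itself -/
lemma span_map {L : AddSubgroup V} {f : V →ₗ[ℝ] V} (hf : ∀ x ∈ L, f x ∈ L) :
    ∀ x ∈ span ℝ (L : Set V), f x ∈ span ℝ (L : Set V) := by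
  intro x hx
  induction hx using Submodule.span_induction with
  | mem x hx => exact subset_span (hf x hx)
  | zero => rw [map_zero]; exact zero_mem _
  | add x y _ _ hx hy => rw [map_add]; exact add_mem hx hy
  | smul c x _ hx => rw [map_smul]; exact smul_mem _ _ hx

/-- the integer matrix -/
lemma exists_mat [FiniteDimensional ℝ V] (L : AddSubgroup V) (hd : ∃ δ : ℝ, 0 < δ ∧ ∀ x ∈ L, ‖x‖ < δ → x = 0)
    (f : V →ₗ[ℝ] V) (hf : ∀ x ∈ L, f x ∈ L) :
    ∃ (ι : Type) (_ : Fintype ι) (_ : DecidableEq ι) (B : Basis ι ℝ (span ℝ (L : Set V)))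
      (N : Matrix ι ι ℤ), (∀ i, ((B i : span ℝ (L : Set V)) : V) ∈ L) ∧
      (LinearMap.toMatrix B B (f.restrict (span_map hf))) = N.map (Int.cast : ℤ → ℝ) := by
  classical
  have := lt_disc L hd
  have := lt_lat L
  have : Module.Finite ℤ (lt L) := ZLattice.module_finite ℝ (lt L)
  have : Free ℤ (lt L) := ZLattice.module_free ℝ (lt L)
  set b := Free.chooseBasis ℤ (lt L)
  have hfm : ∀ j, (f.restrict (span_map hf)) (b j : span ℝ (L : Set V)) ∈ lt L := by
    intro j
    rw [lt_mem]
    exact hf _ (b j).2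
  refine ⟨Free.ChooseBasisIndex ℤ (lt L), inferInstance, inferInstance, b.ofZLatticeBasis ℝ (lt L),
    Matrix.of fun i j => b.repr ⟨_, hfm j⟩ i, fun i => ?_, ?_⟩
  · rw [Basis.ofZLatticeBasis_apply]
    exact (b i).2
  · ext i j
    rw [LinearMap.toMatrix_apply, Basis.ofZLatticeBasis_apply, Matrix.map_apply, Matrix.of_apply]
    exact b.ofZLatticeBasis_repr_apply ℝ (lt L) ⟨_, hfm j⟩ i

end

/-- lattices: integral kernels -/
theorem latker : Pool.Agent.Helper63.Rd.S_LATKER := by
  intro V _ _ _ L hd f hf x hx hx0 hfx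
  obtain ⟨ι, _, _, B, N, hB, hN⟩ := exists_mat L hd f hf
  have h1 : (LinearMap.toMatrix B B (f.restrict (span_map hf))).det = 0 := by
    rw [← Matrix.exists_mulVec_eq_zero_iff]
    refine ⟨B.repr ⟨x, hx⟩, ?_, ?_⟩
    · intro h0
      apply hx0
      have h3 : B.repr ⟨x, hx⟩ = 0 := by
        ext i
        exact congrFun h0 i
      have h4 : (⟨x, hx⟩ : span ℝ (L : Set V)) = 0 := by
        apply B.repr.injective
        rw [h3, map_zero]
      exact congrArg Subtype.val h4
    · rw [LinearMap.toMatrix_mulVec_repr]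
      have h3 : (f.restrict (span_map hf)) ⟨x, hx⟩ = 0 := Subtype.ext hfx
      rw [h3, map_zero]
      rfl
  rw [hN] at h1
  have h2 : N.det = 0 := by
    have h3 : ((N.det : ℤ) : ℝ) = (N.map (Int.cast : ℤ → ℝ)).det := (Int.castRingHom ℝ).map_det N
    rw [h1] at h3
    exact_mod_cast h3
  obtain ⟨v, hv0, hv⟩ := Matrix.exists_mulVec_eq_zero_iff.2 h2
  set y : span ℝ (L : Set V) := ∑ j, (v j : ℝ) • B j with hy
  refine ⟨(y : V), ?_, ?_, ?_⟩
  · rw [hy, Submodule.coe_sum]
    refine L.sum_mem fun j _ => ?_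
    rw [Submodule.coe_smul, Int.cast_smul_eq_zsmul]
    exact L.zsmul_mem (hB j) _
  · intro h0
    have h3 : y = 0 := Subtype.ext h0
    have h4 := (Fintype.linearIndependent_iff.1 B.linearIndependent) (fun j => (v j : ℝ)) h3
    apply hv0
    funext j
    exact_mod_cast h4 j
  · have h3 : (f.restrict (span_map hf)) y = 0 := by
      apply B.repr.injective
      have h4 := LinearMap.toMatrix_mulVec_repr B B (f.restrict (span_map hf)) y
      have h5 : (B.repr y : ι → ℝ) = fun j => (v j : ℝ) := by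
        rw [hy]
        exact B.repr_sum_self _
      rw [h5, hN] at h4
      have h6 : (N.map (Int.cast : ℤ → ℝ)).mulVec (fun j => (v j : ℝ)) = 0 := by
        funext i
        have h8 := congrArg (Int.cast : ℤ → ℝ) (congrFun hv i)
        simpa [Matrix.mulVec, dotProduct] using h8
      rw [h6] at h4
      ext i
      rw [map_zero]
      exact (congrFun h4 i).symm
    exact congrArg Subtype.val h3

/-- lattices: integral determinants -/
theorem latdet : Pool.Agent.Helper63.Rd.S_LATDET := by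
  intro V Y _ _ _ _ _ L hd f hf p hp1 hp2 g hg
  obtain ⟨ι, _, _, B, N, hB, hN⟩ := exists_mat L hd f hf
  set f' := f.restrict (span_map hf) with hf'
  set e0 : span ℝ (L : Set V) →ₗ[ℝ] Y := p.comp (span ℝ (L : Set V)).subtype with he0
  have hinj : Function.Injective e0 := by
    rw [← LinearMap.ker_eq_bot, LinearMap.ker_eq_bot']
    intro x hx
    exact Subtype.ext (hp1 x x.2 hx)
  have hsur : Function.Surjective e0 := by
    intro y
    obtain ⟨x, hx, hxy⟩ := hp2 y
    exact ⟨⟨x, hx⟩, hxy⟩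
  set e : span ℝ (L : Set V) ≃ₗ[ℝ] Y := LinearEquiv.ofBijective e0 ⟨hinj, hsur⟩ with he
  have hcomm : ∀ x : span ℝ (L : Set V), e (f' x) = g (e x) := by
    have h1 : ∀ x ∈ span ℝ (L : Set V), p (f x) = g (p x) := by
      intro x hx
      induction hx using Submodule.span_induction with
      | mem x hx => exact hg x hx
      | zero => simp
      | add x y _ _ hx hy => rw [map_add, map_add, map_add, map_add, hx, hy]
      | smul c x _ hx => rw [map_smul, map_smul, map_smul, map_smul, hx]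
    intro x
    exact h1 x x.2
  have hge : g = (e : span ℝ (L : Set V) →ₗ[ℝ] Y) ∘ₗ f' ∘ₗ (e.symm : Y →ₗ[ℝ] span ℝ (L : Set V)) := by
    ext y
    simp only [LinearMap.comp_apply, LinearEquiv.coe_coe]
    rw [hcomm, e.apply_symm_apply]
  refine ⟨N.det, ?_⟩
  rw [hge, LinearMap.det_conj, ← LinearMap.det_toMatrix B, hN]
  have h3 := (Int.castRingHom ℝ).map_det N
  exact h3.symm

end Pool.Agent.Helper80.RD
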